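import Pool.Agent.Helper64.PC.Jp

/-!
# The generic ultrafilter of `JP`
-/

namespace Pool.Agent.Helper20.PC

open Pool.Agent.Helper64.PC Set

theorem data_not_pos_empty {S : Set (List ℕ)} (h : S = ∅) : ¬ Pos S := by
  intro hp
  obtain ⟨l, hl⟩ := hp 0
  have : l ∈ S := hl
  rw [h] at this
  exact this

theorem data_big_restrict {r : ℕ} {S : Set (List ℕ)} {l : List ℕ} (h : Big r S l) :
    Big r (S ∩ {l' | ∃ s : List ℕ, s.length = r ∧ l' = s ++ l}) l := by
  induction r generalizing l with
  | zero => exact ⟨h, [], rfl, rfl⟩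
  | succ r ih =>
    refine Set.Infinite.mono (fun t ht => ?_) h
    refine big_mono ?_ (ih ht)
    rintro l' ⟨h1, s, hs, rfl⟩
    exact ⟨h1, s ++ [t], by simp [hs], by simp⟩

theorem data_large (f : ℕ → ℕ) (k : ℕ) : ¬ Pos {l : List ℕ | l.getD k 0 ≤ f l.length} := by
  intro hp
  obtain ⟨l, hl⟩ := hp (k + 1)
  have h1 : {t | Big k {l : List ℕ | l.getD k 0 ≤ f l.length} (t :: l)}.Infinite := hl
  apply h1
  refine (Set.finite_Iic (f (k + 1 + l.length))).subset ?_
  intro t ht
  obtain ⟨s, hs, hm⟩ := big_mem ht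
  have h2 : (s ++ t :: l).getD k 0 ≤ f (s ++ t :: l).length := hm
  have h3 : (s ++ t :: l).getD k 0 = t := by
    rw [← hs]
    simp
  have h4 : (s ++ t :: l).length = k + 1 + l.length := by
    simp [hs]
    omega
  rw [h3, h4] at h2
  exact h2

open Classical in
/-- The data of the generic ultrafilter. -/
noncomputable def dataD (e : List ℕ ≃ ℕ) : NegData JP where
  U X p := ¬ Pos {l | l ∈ p.S ∧ e l ∉ X}
  mono X p q h hqp hp := by
    have h1 : {l | l ∈ q.S ∧ e l ∉ X} ⊆ (q.S \ p.S) ∪ {l | l ∈ p.S ∧ e l ∉ X} := by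
      rintro l ⟨hl, hx⟩
      by_cases hlp : l ∈ p.S
      · exact Or.inr ⟨hlp, hx⟩
      · exact Or.inl ⟨hl, hlp⟩
    rcases pos_union (pos_mono h1 hp) with h2 | h2
    · exact hqp h2
    · exact h h2
  dense X p h hp := by
    have hq : (⟨_, hp⟩ : JP) ≤ p := by
      rw [JP.le_def]
      apply data_not_pos_empty
      ext l
      simp only [mem_sdiff, mem_ofPred_eq, mem_empty_iff_false, iff_false, not_and, not_not]
      exact fun h => h.1
    obtain ⟨r, hr, hr'⟩ := h _ hq
    have h1 : r.S ⊆ (r.S \ {l | l ∈ p.S ∧ e l ∉ X}) ∪ {l | l ∈ r.S ∧ e l ∉ X} := by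
      intro l hl
      by_cases hx : e l ∈ X
      · exact Or.inl ⟨hl, fun h => h.2 hx⟩
      · exact Or.inr ⟨hl, hx⟩
    rcases pos_union (pos_mono h1 r.pos) with h2 | h2
    · exact hr h2
    · exact hr' h2
  up X Y p h hX hp := hX (pos_mono (fun l hl => ⟨hl.1, fun hx => hl.2 (h hx)⟩) hp)
  inter X Y p hX hY hp := by
    have h1 : {l | l ∈ p.S ∧ e l ∉ X ∩ Y} ⊆
        {l | l ∈ p.S ∧ e l ∉ X} ∪ {l | l ∈ p.S ∧ e l ∉ Y} := by
      rintro l ⟨hl, hx⟩
      by_cases hlp : e l ∈ X
      · exact Or.inr ⟨hl, fun h => hx ⟨hlp, h⟩⟩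
      · exact Or.inl ⟨hl, hlp⟩
    rcases pos_union (pos_mono h1 hp) with h2 | h2
    · exact hX h2
    · exact hY h2
  ultra X p := by
    by_cases h : Pos {l | l ∈ p.S ∧ e l ∉ Xᶜ}
    · refine ⟨⟨_, h⟩, ?_, Or.inl ?_⟩
      · rw [JP.le_def]
        apply data_not_pos_empty
        ext l
        simp only [mem_sdiff, mem_ofPred_eq, mem_empty_iff_false, iff_false, not_and, not_not]
        exact fun h => h.1
      · apply data_not_pos_empty
        ext l
        simp only [mem_ofPred_eq, mem_empty_iff_false, iff_false, not_and, not_not, mem_compl_iff]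
        exact fun h => h.2
    · exact ⟨p, le_rfl, Or.inr h⟩
  empty p h := h (pos_mono (fun l hl => ⟨hl, fun h => h⟩) p.pos)
  fin i p h := by
    have h1 : p.S ⊆ {l | l ∈ p.S ∧ e l ∉ ({i} : Set ℕ)} ∪ {l | l = e.symm i} := by
      intro l hl
      by_cases hx : e l = i
      · right
        show l = e.symm i
        rw [← hx]; simp
      · left
        exact ⟨hl, hx⟩
    rcases pos_union (pos_mono h1 p.pos) with h2 | h2
    · exact h h2
    · refine not_pos_of_length (e.symm i).length ?_ h2
      rintro l hl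
      rw [show l = e.symm i from hl]
  π i := (e.symm i).length
  surj j := ⟨e (List.replicate j 0), by simp⟩
  small j p h := by
    have h1 : p.S ⊆ {l | l ∈ p.S ∧ e l ∉ {i | (e.symm i).length = j}} ∪
        {l : List ℕ | l.length = j} := by
      intro l hl
      by_cases hx : l.length = j
      · exact Or.inr hx
      · left
        refine ⟨hl, ?_⟩
        simpa using hx
    rcases pos_union (pos_mono h1 p.pos) with h2 | h2
    · exact h h2
    · refine not_pos_of_length j ?_ h2
      rintro l hl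
      rw [show l.length = j from hl]
  n k i := (e.symm i).getD k 0
  large f k p hp := by
    refine data_large f k (pos_mono ?_ hp)
    rintro l ⟨hl, hx⟩
    simp only [mem_ofPred_eq, Equiv.symm_apply_apply, not_lt] at hx
    exact hx
  cut x p h := by
    have key : ∀ m : ℕ, ∃ l : List ℕ,
        Big m {l' | l' ∈ p.S ∧ x (e l') < l'.getD m 0} l := by
      intro m
      have h1 := h m
      simp only [Pos, not_forall, not_exists] at h1
      obtain ⟨M, hM⟩ := h1
      obtain ⟨l, hl⟩ := p.pos (max M m)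
      have h2 : p.S ⊆ {l | l ∈ p.S ∧ e l ∉ {i | x i < (e.symm i).getD m 0}} ∪
          {l' | l' ∈ p.S ∧ x (e l') < l'.getD m 0} := by
        intro l' hl'
        by_cases hx : x (e l') < l'.getD m 0
        · exact Or.inr ⟨hl', hx⟩
        · left
          refine ⟨hl', ?_⟩
          simpa using hx
      rcases big_union (big_mono h2 hl) with h3 | h3
      · obtain ⟨l', hl'⟩ := big_le (le_max_left M m) h3
        exact absurd hl' (hM l')
      · exact big_le (le_max_right M m) h3
    choose L hL using key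
    have hA : Pos {l' : List ℕ | ∃ m, (l' ∈ p.S ∧ x (e l') < l'.getD m 0) ∧
        ∃ s : List ℕ, s.length = m ∧ l' = s ++ L m} := by
      intro m
      refine ⟨L m, big_mono ?_ (data_big_restrict (hL m))⟩
      rintro l' ⟨h1, h2⟩
      exact ⟨m, h1, h2⟩
    refine ⟨⟨_, hA⟩, ?_, fun j => ∑ m ∈ Finset.range (j + 1), (L m).getD 0 0, ?_⟩
    · rw [JP.le_def]
      apply data_not_pos_empty
      ext l
      simp only [mem_sdiff, mem_ofPred_eq, mem_empty_iff_false, iff_false, not_and, not_not]
      rintro ⟨m, hm, -⟩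
      exact hm.1
    · apply data_not_pos_empty
      ext l
      simp only [mem_ofPred_eq, mem_empty_iff_false, iff_false, not_and, not_not,
        Equiv.symm_apply_apply]
      rintro ⟨m, hm, s, hs, hl⟩
      have h1 : l.getD m 0 = (L m).getD 0 0 := by
        rw [hl, List.getD_append_right _ _ _ _ (le_of_eq hs), hs, Nat.sub_self]
      have h2 : m ∈ Finset.range (l.length + 1) := by
        rw [Finset.mem_range, hl, List.length_append, hs]
        omega
      have h3 : (L m).getD 0 0 ≤ ∑ m ∈ Finset.range (l.length + 1), (L m).getD 0 0 :=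
        Finset.single_le_sum (f := fun m => (L m).getD 0 0) (fun _ _ => Nat.zero_le _) h2
      have h4 := hm.2
      rw [h1] at h4
      exact h4.le.trans h3

theorem st_data : ST_data := ⟨dataD (Denumerable.eqv (List ℕ))⟩

end Pool.Agent.Helper20.PC
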