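import Pool.Agent.Helper64.PC.Frc

/-!
# The meaning of the formula `isSmallPartition`
-/

namespace Pool.Agent.Helper20.PC

open Pool.Agent.Helper46.SP Pool.Agent.Helper94.SP Name Set Pool.Agent.Helper64.PC

theorem part_fd {P : Type} [Preorder P] [OrderTop P] (f : Name P) (i j : ℕ) (p : P) :
    Fd {s | FP f i j s} p ↔ FP f i j p :=
  fd_iff_mem (fun _ _ h hq => fmem_mono h hq) (fun _ h => fmem_dense h)

theorem st_part : ST_fun → ST_large → ST_part := by
  intro hfun hlarge P _ _ k v w F q p hw hF
  have h1 : (triv P).Forces (Fm.isSmallPartition w F q) v p ↔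
      (triv P).Forces (Fm.isFun w q) v p ∧
      Fo (.all (.imp (.mem 0 w.succ) (.ex (.relMem q.succ.succ 0 1)))) v p ∧
      Fo (.all (.imp (.mem 0 w.succ) (.neg (.ex (.and (.mem 0 F.succ.succ)
        (.all (.imp (.mem 0 1) (.relMem q.succ.succ.succ 0 2)))))))) v p := Iff.rfl
  rw [h1, hfun P k v w q p hw]
  refine and_congr_right (fun hq => and_congr ?_ ?_)
  · rw [fo_all_omega _ _ _ hw]
    refine forall_congr' fun j => ?_
    rw [fo_ex]
    constructor
    · intro h r hr
      obtain ⟨s, hs', x, hx⟩ := h r hr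
      rw [fo_relMem] at hx
      have hx' : FMem (opair x (num j)) (v q) s := hx
      obtain ⟨t, ht, n, m, -, hm, hfp⟩ := hq.num_of_mem (hs'.trans hr) hx' s le_rfl
      obtain rfl := num_inj hm
      exact ⟨t, ht.trans hs', n, hfp⟩
    · intro h r hr
      obtain ⟨s, hs', i, hi⟩ := h r hr
      refine ⟨s, hs', num i, ?_⟩
      rw [fo_relMem]
      exact hi
  · rw [fo_all_omega _ _ _ hw]
    refine forall_congr' fun j => ?_
    rw [fo_neg]
    refine forall_congr' fun r => forall_congr' fun hr => not_congr ?_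
    refine hlarge P (k + 1) (Fin.cons (num j) v) F.succ _ (fun i => {s | FP (v q) i j s}) r
      (hF.mono hr) ?_
    intro s i q' _
    rw [part_fd]
    exact fo_relMem _ _ _ _ _

end Pool.Agent.Helper20.PC
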